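import Mathlib

/-!
# Two-point sets and Hamel bases: the algebra of one step
-/

set_option autoImplicit false

namespace Pool.Agent.X237.TP

open Set Cardinal Submodule

/-- the plane -/
abbrev E := ℝ × ℝ

/-- the determinant -/
def cr (x y : E) : ℝ := x.1 * y.2 - x.2 * y.1

/-- `p` is generic over the subspace `L` -/
def Gen (L : Submodule ℚ E) (p : E) : Prop :=
  ∀ a ∈ L, ∀ d ∈ L, d ≠ 0 → cr (p - a) d ≠ 0

theorem Gen.notMem {L : Submodule ℚ E} {p u : E} (h : Gen L p) (hu : u ∈ L) (hu0 : u ≠ 0) :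
    p ∉ L := by
  intro hp
  apply h p hp u hu hu0
  simp [cr]

theorem cr_smul_left (r : ℚ) (x y : E) : cr (r • x) y = (r : ℝ) * cr x y := by
  simp only [cr, Prod.smul_fst, Prod.smul_snd, Rat.smul_def]; ring

theorem cr_smul_right (r : ℚ) (x y : E) : cr x (r • y) = (r : ℝ) * cr x y := by
  simp only [cr, Prod.smul_fst, Prod.smul_snd, Rat.smul_def]; ring

theorem cr_sub_right (x y z : E) : cr x (y - z) = cr x y - cr x z := by
  simp only [cr, Prod.fst_sub, Prod.snd_sub]; ring

theorem cr_sub_left (x y z : E) : cr (x - y) z = cr x z - cr y z := by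
  simp only [cr, Prod.fst_sub, Prod.snd_sub]; ring

theorem cr_self (x : E) : cr x x = 0 := by
  simp only [cr]; ring

theorem cr_comm (x y : E) : cr x y = - cr y x := by
  simp only [cr]; ring

/-- two vectors parallel to a nonzero vector are parallel -/
theorem cr_par {x y d : E} (hd : d ≠ 0) (hx : cr x d = 0) (hy : cr y d = 0) : cr x y = 0 := by
  have hd' : d.1 ≠ 0 ∨ d.2 ≠ 0 := by
    by_contra h
    push Not at h
    exact hd (Prod.ext h.1 h.2)
  simp only [cr] at *
  rcases hd' with h | h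
  · have : d.1 * (x.1 * y.2 - x.2 * y.1) = 0 := by
      linear_combination y.1 * hx - x.1 * hy
    rcases mul_eq_zero.1 this with h' | h'
    · exact absurd h' h
    · exact h'
  · have : d.2 * (x.1 * y.2 - x.2 * y.1) = 0 := by
      linear_combination y.2 * hx - x.2 * hy
    rcases mul_eq_zero.1 this with h' | h'
    · exact absurd h' h
    · exact h'

/-- The three vectors `p₁`, `p₂` and the members of `L`. -/
structure Pair (L : Submodule ℚ E) (p1 p2 : E) : Prop where
  u : ∃ u ∈ L, u ≠ 0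
  g1 : Gen L p1
  g2 : Gen (L ⊔ span ℚ {p1}) p2

namespace Pair

variable {L : Submodule ℚ E} {p1 p2 : E}

theorem le (L : Submodule ℚ E) (p1 : E) : L ≤ L ⊔ span ℚ {p1} := le_sup_left

theorem mem1 (L : Submodule ℚ E) (p1 : E) : p1 ∈ L ⊔ span ℚ {p1} :=
  (le_sup_right : span ℚ {p1} ≤ L ⊔ span ℚ {p1}) (mem_span_singleton_self p1)

/-- independence over `L` -/
theorem indep (h : Pair L p1 p2) {a b : ℚ} {l : E} (hl : l ∈ L)
    (h0 : a • p1 + b • p2 + l = 0) : a = 0 ∧ b = 0 := by
  obtain ⟨u, hu, hu0⟩ := h.u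
  have hb : b = 0 := by
    by_contra hb
    have h1 : p2 ∉ L ⊔ span ℚ {p1} := h.g2.notMem (le L p1 hu) hu0
    apply h1
    have h2 : p2 = b⁻¹ • (-(a • p1) - l) := by
      have : b • p2 = -(a • p1) - l := by
        rw [eq_sub_iff_add_eq, eq_neg_iff_add_eq_zero]
        rw [← h0]; abel
      rw [← this, smul_smul, inv_mul_cancel₀ hb, one_smul]
    rw [h2]
    exact smul_mem _ _ (sub_mem (neg_mem (smul_mem _ _ (mem1 L p1))) (le L p1 hl))
  refine ⟨?_, hb⟩
  by_contra ha
  have h1 : p1 ∉ L := h.g1.notMem hu hu0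
  apply h1
  have h2 : p1 = a⁻¹ • (-l) := by
    have : a • p1 = -l := by
      rw [eq_neg_iff_add_eq_zero]
      rw [← h0, hb]; simp
    rw [← this, smul_smul, inv_mul_cancel₀ ha, one_smul]
  rw [h2]
  exact smul_mem _ _ (neg_mem hl)

/-- the case of a vector involving `p₂` -/
theorem par_aux (h : Pair L p1 p2) {a b : ℚ} {l Z : E} (hl : l ∈ L) (hb : b ≠ 0)
    (hZ : Z ∈ L ⊔ span ℚ {p1}) (h0 : cr (a • p1 + b • p2 + l) Z = 0) : Z = 0 := by
  by_contra hZ0
  have h1 := h.g2 (-(b⁻¹ • (a • p1 + l)))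
    (neg_mem (smul_mem _ _ (add_mem (smul_mem _ _ (mem1 L p1)) (le L p1 hl)))) Z hZ hZ0
  apply h1
  have h2 : p2 - -(b⁻¹ • (a • p1 + l)) = b⁻¹ • (a • p1 + b • p2 + l) := by
    simp only [smul_add, smul_smul, inv_mul_cancel₀ hb, one_smul]
    abel
  rw [h2, cr_smul_left, h0, mul_zero]

/-- **Parallel vectors are rationally proportional, coordinate by coordinate.** -/
theorem par (h : Pair L p1 p2) {a b a' b' : ℚ} {l l' : E} (hl : l ∈ L) (hl' : l' ∈ L)
    (hab : a ≠ 0 ∨ b ≠ 0)
    (h0 : cr (a • p1 + b • p2 + l) (a' • p1 + b' • p2 + l') = 0) :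
    ∃ r : ℚ, a' = r * a ∧ b' = r * b ∧ l' = r • l := by
  set X := a • p1 + b • p2 + l with hX
  set Y := a' • p1 + b' • p2 + l' with hY
  have h0' : cr Y X = 0 := by rw [cr_comm, h0, neg_zero]
  -- the combination eliminating `p₂`
  have hZ1 : b' • X - b • Y = (a * b' - a' * b) • p1 + (b' • l - b • l') := by
    simp only [hX, hY, smul_add, smul_smul, sub_smul]
    rw [mul_comm b' a, mul_comm b a', mul_comm b' b]
    abel
  have hZmem : b' • X - b • Y ∈ L ⊔ span ℚ {p1} := by
    rw [hZ1]
    exact add_mem (smul_mem _ _ (mem1 L p1))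
      (le L p1 (sub_mem (smul_mem _ _ hl) (smul_mem _ _ hl')))
  have hkey : ∀ c c' : ℚ, c' • X - c • Y = 0 → a * c' - a' * c = 0 ∧ c' * b - c * b' = 0 ∧
      c' • l - c • l' = 0 := by
    intro c c' hc
    have h1 : (a * c' - a' * c) • p1 + (c' * b - c * b') • p2 + (c' • l - c • l') = 0 := by
      rw [← hc]
      simp only [hX, hY, smul_add, smul_smul, sub_smul]
      rw [mul_comm c' a, mul_comm c a']
      abel
    have h2 := h.indep (sub_mem (smul_mem _ _ hl) (smul_mem _ _ hl')) h1
    refine ⟨h2.1, h2.2, ?_⟩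
    rw [h2.1, h2.2] at h1
    simpa using h1
  have hfin : ∀ c c' : ℚ, c ≠ 0 → c' • X - c • Y = 0 →
      ∃ r : ℚ, a' = r * a ∧ b' = r * b ∧ l' = r • l := by
    intro c c' hc hcc
    obtain ⟨h1, h2, h3⟩ := hkey c c' hcc
    refine ⟨c' / c, ?_, ?_, ?_⟩
    · field_simp
      linear_combination -h1
    · field_simp
      linear_combination -h2
    · have : c • l' = c' • l := (sub_eq_zero.1 h3).symm
      rw [div_eq_inv_mul, mul_smul, ← this, smul_smul, inv_mul_cancel₀ hc, one_smul]
  by_cases hb : b = 0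
  · have ha : a ≠ 0 := by
      rcases hab with h' | h'
      · exact h'
      · exact absurd hb h'
    by_cases hb' : b' = 0
    · -- both in `L + ℚ p₁`
      have hZ2 : a' • X - a • Y = a' • l - a • l' := by
        simp only [hX, hY, smul_add, smul_smul, hb, hb', zero_smul, mul_comm a' a]
        simp
      have hZ2mem : a' • X - a • Y ∈ L := by
        rw [hZ2]; exact sub_mem (smul_mem _ _ hl) (smul_mem _ _ hl')
      have hcr : cr X (a' • X - a • Y) = 0 := by
        rw [cr_sub_right, cr_smul_right, cr_smul_right, cr_self, h0]; ring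
      have hz : a' • X - a • Y = 0 := by
        by_contra hz
        have h1 := h.g1 (-(a⁻¹ • l)) (neg_mem (smul_mem _ _ hl)) _ hZ2mem hz
        apply h1
        have h2 : p1 - -(a⁻¹ • l) = a⁻¹ • X := by
          simp only [hX, hb, smul_add, smul_smul, inv_mul_cancel₀ ha, one_smul, zero_smul,
            smul_zero]
          simp
        rw [h2, cr_smul_left, hcr, mul_zero]
      exact hfin a a' ha hz
    · exfalso
      have hcr : cr Y (b' • X - b • Y) = 0 := by
        rw [cr_sub_right, cr_smul_right, cr_smul_right, cr_self, h0']; ring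
      have hz := h.par_aux hl' hb' hZmem hcr
      obtain ⟨h1, -, -⟩ := hkey b b' hz
      rw [hb] at h1
      simp only [mul_zero, sub_zero, mul_eq_zero] at h1
      rcases h1 with h1 | h1
      · exact ha h1
      · exact hb' h1
  · have hcr : cr X (b' • X - b • Y) = 0 := by
      rw [cr_sub_right, cr_smul_right, cr_smul_right, cr_self, h0]; ring
    have hz := h.par_aux hl hb hZmem hcr
    exact hfin b b' hb hz

end Pair

end Pool.Agent.X237.TP
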