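import Pool.Agent.X237.TP.Main

/-!
# Two-point sets splitting into two Hamel functions in every direction
-/

set_option autoImplicit false

namespace Pool.Agent.X237.TP

open Set Cardinal Submodule

/-- the rotation as a rational linear map -/
noncomputable def rotL (θ : ℝ) : E →ₗ[ℚ] E where
  toFun p := (p.1 * Real.cos θ - p.2 * Real.sin θ, p.1 * Real.sin θ + p.2 * Real.cos θ)
  map_add' x y := by
    ext
    · simp only [Prod.fst_add, Prod.snd_add]; ring
    · simp only [Prod.fst_add, Prod.snd_add]; ring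
  map_smul' r x := by
    ext
    · simp only [Prod.smul_fst, Prod.smul_snd, Rat.smul_def, RingHom.id_apply]; ring
    · simp only [Prod.smul_fst, Prod.smul_snd, Rat.smul_def, RingHom.id_apply]; ring

theorem rotL_neg (θ : ℝ) (p : E) : rotL (-θ) (rotL θ p) = p := by
  have h := Real.sin_sq_add_cos_sq θ
  ext
  · simp only [rotL, LinearMap.coe_mk, AddHom.coe_mk, Real.cos_neg, Real.sin_neg]
    linear_combination p.1 * h
  · simp only [rotL, LinearMap.coe_mk, AddHom.coe_mk, Real.cos_neg, Real.sin_neg]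
    linear_combination p.2 * h

theorem rotL_injective (θ : ℝ) : Function.Injective (rotL θ) := by
  intro x y h
  rw [← rotL_neg θ x, h, rotL_neg]

theorem rotL_surjective (θ : ℝ) : Function.Surjective (rotL θ) := by
  intro y
  refine ⟨rotL (-θ) y, ?_⟩
  have := rotL_neg (-θ) y
  rwa [neg_neg] at this

/-- **The theorem, in raw form.** -/
theorem exists_twoHamel : ∃ M : Set (ℝ × ℝ),
    (∀ a b c : ℝ, (a ≠ 0 ∨ b ≠ 0) → (M ∩ {p : ℝ × ℝ | a * p.1 + b * p.2 = c}).ncard = 2) ∧
    ∀ θ : ℝ, ∃ f g : ℝ → ℝ,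
      (LinearIndepOn ℚ id {p : ℝ × ℝ | p.2 = f p.1} ∧ span ℚ {p : ℝ × ℝ | p.2 = f p.1} = ⊤) ∧
      (LinearIndepOn ℚ id {p : ℝ × ℝ | p.2 = g p.1} ∧ span ℚ {p : ℝ × ℝ | p.2 = g p.1} = ⊤) ∧
      (fun p : ℝ × ℝ => (p.1 * Real.cos θ - p.2 * Real.sin θ,
        p.1 * Real.sin θ + p.2 * Real.cos θ)) '' M =
          {p : ℝ × ℝ | p.2 = f p.1} ∪ {p : ℝ × ℝ | p.2 = g p.1} := by
  classical
  obtain ⟨S, hS, hT⟩ := exists_coloured
  refine ⟨Prod.fst '' S, ?_, ?_⟩
  · -- two points on every line
    intro a b c hab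
    have hu : ((-b, a) : E) ≠ 0 := by
      intro h
      rw [Prod.mk_eq_zero] at h
      rcases hab with h' | h'
      · exact h' h.2
      · exact h' (neg_eq_zero.1 h.1)
    have hcr : ∀ x : E, cr x (-b, a) = a * x.1 + b * x.2 := by
      intro x; simp only [cr]; ring
    obtain ⟨p, hp, q, hq, hpq, hpt, hqt⟩ := hT (Sum.inl (⟨(-b, a), hu⟩, c))
    simp only at hpt hqt
    have hset : (Prod.fst '' S) ∩ {p : ℝ × ℝ | a * p.1 + b * p.2 = c} = {p.1, q.1} := by
      ext x
      simp only [mem_inter_iff, mem_ofPred_eq, mem_insert_iff, mem_singleton_iff]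
      constructor
      · rintro ⟨⟨r, hr, rfl⟩, hrt⟩
        by_contra hcon
        push Not at hcon
        have hrt' : cr r.1 (-b, a) = c := by rw [hcr]; exact hrt
        refine hS.no_three hr hp hq (fun h => hcon.1 (congrArg Prod.fst h))
          (fun h => hcon.2 (congrArg Prod.fst h)) hpq hu ?_ ?_
        · rw [cr_sub_left, hrt', hpt, sub_self]
        · rw [cr_sub_left, hrt', hqt, sub_self]
      · rintro (rfl | rfl)
        · exact ⟨⟨p, hp, rfl⟩, by rw [← hcr]; exact hpt⟩
        · exact ⟨⟨q, hq, rfl⟩, by rw [← hcr]; exact hqt⟩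
    rw [hset]
    exact ncard_pair (fun h => hpq (hS.inj p hp q hq h))
  · intro θ
    have hu : ((Real.sin θ, Real.cos θ) : E) ≠ 0 := by
      intro h
      rw [Prod.mk_eq_zero] at h
      have := Real.sin_sq_add_cos_sq θ
      rw [h.1, h.2] at this
      norm_num at this
    set u : Dir := ⟨(Real.sin θ, Real.cos θ), hu⟩ with hudef
    have hcr : ∀ x : E, (rotL θ x).1 = cr x u := by
      intro x
      simp only [cr, hudef, rotL, LinearMap.coe_mk, AddHom.coe_mk]
    -- the two halves
    have hhalf : ∀ b : Bool, ∃ f : ℝ → ℝ, rotL θ '' (cls S u b) = {p : ℝ × ℝ | p.2 = f p.1} := by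
      intro b
      have hex : ∀ x : ℝ, ∃ y : ℝ, (x, y) ∈ rotL θ '' (cls S u b) := by
        intro x
        obtain ⟨p, hp, q, hq, hpq, hpt, hqt⟩ := hT (Sum.inl (u, x))
        simp only at hpt hqt
        have hne := hS.sep p hp q hq hpq u (by rw [cr_sub_left, hpt, hqt, sub_self])
        have hor : p.2 u = b ∨ q.2 u = b := by
          generalize p.2 u = y at *
          generalize q.2 u = z at *
          revert y z b
          decide
        rcases hor with h | h
        · refine ⟨(rotL θ p.1).2, p.1, ⟨p.2, hp, h⟩, ?_⟩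
          ext
          · rw [hcr, hpt]
          · rfl
        · refine ⟨(rotL θ q.1).2, q.1, ⟨q.2, hq, h⟩, ?_⟩
          ext
          · rw [hcr, hqt]
          · rfl
      choose f hf using hex
      refine ⟨f, ?_⟩
      ext z
      simp only [mem_ofPred_eq]
      constructor
      · rintro ⟨w, hw, rfl⟩
        obtain ⟨w', hw', he⟩ := hf (rotL θ w).1
        have hww : w' = w := by
          obtain ⟨κ, h1, h2⟩ := hw
          obtain ⟨κ', h1', h2'⟩ := hw'
          by_contra hne
          refine hS.sep (w', κ') h1' (w, κ) h1 (fun h => hne (congrArg Prod.fst h)) u ?_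
            (h2'.trans h2.symm)
          have h3 : (rotL θ w').1 = (rotL θ w).1 := by rw [he]
          rw [hcr, hcr] at h3
          rw [cr_sub_left, h3, sub_self]
        rw [← hww] at he ⊢
        exact congrArg Prod.snd he
      · intro hz
        have := hf z.1
        rwa [← hz] at this
    have hHam : ∀ b : Bool, LinearIndepOn ℚ id (rotL θ '' (cls S u b)) ∧
        span ℚ (rotL θ '' (cls S u b)) = ⊤ := by
      intro b
      refine ⟨(hS.ind u b).id_imageₛ (rotL_injective θ).injOn, ?_⟩
      rw [← Submodule.map_span]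
      have htop : span ℚ (cls S u b) = ⊤ := by
        rw [eq_top_iff]
        intro v _
        exact hT (Sum.inr (u, v, b))
      rw [htop, Submodule.map_top, LinearMap.range_eq_top]
      exact rotL_surjective θ
    obtain ⟨f, hf⟩ := hhalf true
    obtain ⟨g, hg⟩ := hhalf false
    refine ⟨f, g, hf ▸ hHam true, hg ▸ hHam false, ?_⟩
    rw [← hf, ← hg, ← image_union]
    have hM : Prod.fst '' S = cls S u true ∪ cls S u false := by
      ext x
      constructor
      · rintro ⟨p, hp, rfl⟩
        cases h : p.2 u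
        · exact Or.inr ⟨p.2, hp, h⟩
        · exact Or.inl ⟨p.2, hp, h⟩
      · rintro (⟨κ, h, -⟩ | ⟨κ, h, -⟩)
        · exact ⟨(x, κ), h, rfl⟩
        · exact ⟨(x, κ), h, rfl⟩
    rw [hM]
    rfl

end Pool.Agent.X237.TP
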