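import Pool.Agent.X237.TP.Three

/-!
# Two-point sets and Hamel bases: the recursion and the theorem
-/

set_option autoImplicit false

namespace Pool.Agent.X237.TP

open Set Cardinal Submodule

/-- the requirements -/
def Task : (Dir × ℝ) ⊕ (Dir × E × Bool) → Set CP → Prop
  | Sum.inl a, S => ∃ p ∈ S, ∃ q ∈ S, p ≠ q ∧ cr p.1 a.1 = a.2 ∧ cr q.1 a.1 = a.2
  | Sum.inr a, S => a.2.1 ∈ span ℚ (cls S a.1 a.2.2)

theorem Task.mono {τ : (Dir × ℝ) ⊕ (Dir × E × Bool)} {S T : Set CP} (h : S ⊆ T)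
    (hS : Task τ S) : Task τ T := by
  rcases τ with a | a
  · obtain ⟨p, hp, q, hq, h1⟩ := hS
    exact ⟨p, h hp, q, h hq, h1⟩
  · exact span_mono (cls_mono h _ _) hS

theorem mk_insert_lt {S : Set CP} (hc : #S < 𝔠) (c : CP) : #(insert c S : Set CP) < 𝔠 := by
  refine (mk_insert_le).trans_lt ?_
  exact add_lt_of_lt aleph0_le_continuum hc (one_lt_aleph0.trans aleph0_lt_continuum)

theorem step {S : Set CP} (hS : Good S) (hc : #S < 𝔠) (τ : (Dir × ℝ) ⊕ (Dir × E × Bool)) :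
    ∃ a : Set CP, a.Finite ∧ Good (S ∪ a) ∧ Task τ (S ∪ a) := by
  rcases τ with ⟨u, t⟩ | ⟨u, v, b⟩
  · -- two points on a line
    by_cases h0 : ∃ p ∈ S, ∃ q ∈ S, p ≠ q ∧ cr p.1 u = t ∧ cr q.1 u = t
    · refine ⟨∅, finite_empty, ?_, ?_⟩
      · rwa [union_empty]
      · rw [union_empty]; exact h0
    have hno : ∀ p ∈ S, ∀ q ∈ S, cr p.1 u = t → cr q.1 u = t → p = q := by
      intro p hp q hq h1 h2
      by_contra h3
      exact h0 ⟨p, hp, q, hq, h3, h1, h2⟩
    obtain ⟨c, hcS, hct, hg⟩ := add_one hS hc u t hno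
    by_cases h1 : ∃ p ∈ insert c S, ∃ q ∈ insert c S, p ≠ q ∧ cr p.1 u = t ∧ cr q.1 u = t
    · refine ⟨{c}, finite_singleton c, ?_, ?_⟩
      · rwa [union_singleton]
      · rw [union_singleton]; exact h1
    have hno' : ∀ p ∈ insert c S, ∀ q ∈ insert c S, cr p.1 u = t → cr q.1 u = t → p = q := by
      intro p hp q hq h2 h3
      by_contra h4
      exact h1 ⟨p, hp, q, hq, h4, h2, h3⟩
    obtain ⟨d, hdS, hdt, hg'⟩ := add_one hg (mk_insert_lt hc c) u t hno'
    have hun : S ∪ {c, d} = insert d (insert c S) := by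
      ext x
      simp only [mem_union, mem_insert_iff, mem_singleton_iff]
      tauto
    refine ⟨{c, d}, by simp, ?_, ?_⟩
    · rw [hun]; exact hg'
    · rw [hun]
      refine ⟨d, mem_insert _ _, c, mem_insert_of_mem _ (mem_insert _ _), ?_, hdt, hct⟩
      rintro rfl
      exact hdS (mem_insert _ _)
  · -- a vector in a span
    by_cases hv : v ∈ span ℚ (cls S u b)
    · refine ⟨∅, finite_empty, ?_, ?_⟩
      · rwa [union_empty]
      · rw [union_empty]; exact hv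
    obtain ⟨c1, c2, c3, hg, h1, h2, h3, hsum⟩ := add_three hS hc u v b hv
    have hun : S ∪ {c1, c2, c3} = insert c1 (insert c2 (insert c3 S)) := by
      ext x
      simp only [mem_union, mem_insert_iff, mem_singleton_iff]
      tauto
    refine ⟨{c1, c2, c3}, by simp, ?_, ?_⟩
    · rw [hun]; exact hg
    · rw [hun]
      show v ∈ span ℚ (cls (insert c1 (insert c2 (insert c3 S))) u b)
      rw [← hsum]
      refine add_mem (add_mem (subset_span ?_) (subset_span ?_)) (subset_span ?_)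
      · exact ⟨c1.2, Or.inl rfl, h1⟩
      · exact ⟨c2.2, Or.inr (Or.inl rfl), h2⟩
      · exact ⟨c3.2, Or.inr (Or.inr (Or.inl rfl)), h3⟩

theorem cls_iUnion {κ : Type} (A : κ → Set CP) (δ : Dir) (b : Bool) :
    cls (⋃ k, A k) δ b = ⋃ k, cls (A k) δ b := by
  ext x
  simp only [cls, mem_ofPred_eq, mem_iUnion]
  constructor
  · rintro ⟨c, ⟨k, h1⟩, h2⟩
    exact ⟨k, c, h1, h2⟩
  · rintro ⟨k, c, h1, h2⟩
    exact ⟨c, ⟨k, h1⟩, h2⟩

theorem Good.iUnion {κ : Type} (A : κ → Set CP) (hdir : Directed (· ⊆ ·) A)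
    (h : ∀ k, Good (A k)) : Good (⋃ k, A k) := by
  refine ⟨?_, ?_, ?_⟩
  · intro p hp q hq hpq
    obtain ⟨i, hi⟩ := mem_iUnion.1 hp
    obtain ⟨j, hj⟩ := mem_iUnion.1 hq
    obtain ⟨k, h1, h2⟩ := hdir i j
    exact (h k).inj p (h1 hi) q (h2 hj) hpq
  · intro p hp q hq hpq
    obtain ⟨i, hi⟩ := mem_iUnion.1 hp
    obtain ⟨j, hj⟩ := mem_iUnion.1 hq
    obtain ⟨k, h1, h2⟩ := hdir i j
    exact (h k).sep p (h1 hi) q (h2 hj) hpq
  · intro δ b
    rw [cls_iUnion]
    refine linearIndepOn_iUnion_of_directed ?_ (fun k => (h k).ind δ b)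
    intro i j
    obtain ⟨k, h1, h2⟩ := hdir i j
    exact ⟨k, cls_mono h1 δ b, cls_mono h2 δ b⟩

/-- choosing a function by well-founded recursion, if every step can be solved -/
theorem exists_rec {ι α : Type*} {r : ι → ι → Prop} (hr : WellFounded r)
    (Q : ∀ i : ι, (∀ j, r j i → α) → α → Prop) (h : ∀ i g, ∃ a, Q i g a) :
    ∃ f : ι → α, ∀ i, Q i (fun j _ => f j) (f i) := by
  classical
  refine ⟨hr.fix (fun i g => Classical.choose (h i g)), fun i => ?_⟩
  rw [hr.fix_eq]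
  exact Classical.choose_spec (h i _)

/-- **The coloured set.** -/
theorem exists_coloured : ∃ S : Set CP, Good S ∧ ∀ τ, Task τ S := by
  classical
  let ι : Type := (𝔠 : Cardinal.{0}).ord.ToType
  have hιc : #ι = 𝔠 := mk_ord_toType _
  have hDir : #Dir ≤ 𝔠 := by
    refine (mk_subtype_le _).trans ?_
    rw [mk_prod, lift_id, mk_real, continuum_mul_self]
  have hT : #((Dir × ℝ) ⊕ (Dir × E × Bool)) ≤ 𝔠 := by
    simp only [mk_sum, mk_prod, lift_id, mk_real, continuum_mul_self, mk_bool]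
    refine add_le_of_le aleph0_le_continuum ?_ ?_
    · exact (mul_le_mul' hDir le_rfl).trans continuum_mul_self.le
    · refine (mul_le_mul' hDir ?_).trans continuum_mul_self.le
      refine (mul_le_mul' le_rfl ?_).trans continuum_mul_self.le
      exact (Cardinal.natCast_lt_aleph0 (n := 2)).le.trans aleph0_le_continuum
  obtain ⟨e⟩ : Nonempty (((Dir × ℝ) ⊕ (Dir × E × Bool)) ↪ ι) := by
    rw [← Cardinal.le_def, hιc]
    exact hT
  let Q : ∀ i : ι, (∀ j, j < i → Set CP) → Set CP → Prop := fun i g a =>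
    a.Finite ∧ (Good (⋃ j : Iio i, g j.1 j.2) → #(⋃ j : Iio i, g j.1 j.2) < 𝔠 →
      Good ((⋃ j : Iio i, g j.1 j.2) ∪ a) ∧
        ∀ τ, e τ = i → Task τ ((⋃ j : Iio i, g j.1 j.2) ∪ a))
  have hQ : ∀ i g, ∃ a, Q i g a := by
    intro i g
    by_cases hg : Good (⋃ j : Iio i, g j.1 j.2) ∧ #(⋃ j : Iio i, g j.1 j.2) < 𝔠
    · by_cases hτ : ∃ τ, e τ = i
      · obtain ⟨τ, hτ⟩ := hτ
        obtain ⟨a, h1, h2, h3⟩ := step hg.1 hg.2 τ
        refine ⟨a, h1, fun _ _ => ⟨h2, ?_⟩⟩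
        intro τ' hτ'
        have : τ' = τ := e.injective (hτ'.trans hτ.symm)
        rw [this]; exact h3
      · refine ⟨∅, finite_empty, fun _ _ => ⟨?_, ?_⟩⟩
        · rw [union_empty]; exact hg.1
        · intro τ h; exact absurd ⟨τ, h⟩ hτ
    · exact ⟨∅, finite_empty, fun h1 h2 => absurd ⟨h1, h2⟩ hg⟩
  obtain ⟨f, hf⟩ := exists_rec (r := fun a b : ι => a < b) wellFounded_lt Q hQ
  set B : ι → Set CP := fun i => ⋃ j : Iio i, f j.1 with hB
  set A : ι → Set CP := fun i => B i ∪ f i with hA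
  have hBc : ∀ i, #(B i) < 𝔠 := by
    intro i
    have h1 : #(B i) ≤ #(Iio i) * ℵ₀ := by
      refine (mk_iUnion_le _).trans ?_
      refine mul_le_mul_right ?_ _
      exact ciSup_le' fun j => (hf j.1).1.countable.le_aleph0
    refine h1.trans_lt ?_
    exact mul_lt_of_lt aleph0_le_continuum (mk_Iio_toType_ord_lt i) aleph0_lt_continuum
  have hfA : ∀ {i j : ι}, j ≤ i → f j ⊆ A i := by
    intro i j hij x hx
    rcases hij.lt_or_eq with h | h
    · exact Or.inl (mem_iUnion.2 ⟨⟨j, h⟩, hx⟩)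
    · exact Or.inr (h ▸ hx)
  have hAmono : ∀ {i j : ι}, j ≤ i → A j ⊆ A i := by
    intro i j hij x hx
    rcases hx with h | h
    · obtain ⟨k, hk⟩ := mem_iUnion.1 h
      exact hfA ((le_of_lt k.2).trans hij) hk
    · exact hfA hij h
  have hBA : ∀ i, B i = ⋃ j : Iio i, A j.1 := by
    intro i
    apply Subset.antisymm
    · intro x hx
      obtain ⟨j, hj⟩ := mem_iUnion.1 hx
      exact mem_iUnion.2 ⟨j, hfA le_rfl hj⟩
    · intro x hx
      obtain ⟨j, hj⟩ := mem_iUnion.1 hx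
      rcases hj with hj | hj
      · obtain ⟨k, hk⟩ := mem_iUnion.1 hj
        exact mem_iUnion.2 ⟨⟨k.1, mem_Iio.2 (lt_trans (mem_Iio.1 k.2) (mem_Iio.1 j.2))⟩, hk⟩
      · exact mem_iUnion.2 ⟨j, hj⟩
  have hgood : ∀ i, Good (A i) := by
    intro i
    induction i using WellFoundedLT.induction with
    | ind i ih =>
      have hBg : Good (B i) := by
        rw [hBA]
        refine Good.iUnion _ ?_ (fun j => ih j.1 j.2)
        intro j k
        rcases le_total j.1 k.1 with h | h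
        · exact ⟨k, hAmono h, Subset.rfl⟩
        · exact ⟨j, Subset.rfl, hAmono h⟩
      exact ((hf i).2 hBg (hBc i)).1
  have hgB : ∀ i, Good (B i) := fun i => (hgood i).mono subset_union_left
  refine ⟨⋃ i, A i, Good.iUnion _ ?_ hgood, fun τ => ?_⟩
  · intro j k
    rcases le_total j k with h | h
    · exact ⟨k, hAmono h, Subset.rfl⟩
    · exact ⟨j, Subset.rfl, hAmono h⟩
  · exact (((hf (e τ)).2 (hgB _) (hBc _)).2 τ rfl).mono (subset_iUnion A (e τ))

end Pool.Agent.X237.TP
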