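import Pool.Agent.X237.TP.Core

/-!
# Two-point sets and Hamel bases: one step of the recursion
-/

set_option autoImplicit false

namespace Pool.Agent.X237.TP

open Set Cardinal Submodule

theorem mk_span_lt (s : Set E) (hs : #s < 𝔠) : #(span ℚ s) < 𝔠 := by
  have h1 : #(span ℚ s) ≤ #(s →₀ ℚ) := by
    have h2 : LinearMap.range (Finsupp.linearCombination ℚ (Subtype.val : s → E)) = span ℚ s := by
      rw [Finsupp.range_linearCombination, Subtype.range_coe]
    rw [← h2]
    exact mk_range_le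
  refine h1.trans_lt ?_
  rcases isEmpty_or_nonempty s with h | h
  · have : Subsingleton (s →₀ ℚ) := inferInstance
    exact (le_one_iff_subsingleton.2 this).trans_lt (one_lt_aleph0.trans aleph0_lt_continuum)
  · rw [mk_finsupp_of_infinite']
    exact max_lt hs (by simpa using aleph0_lt_continuum)

theorem mk_sup_lt {S : Submodule ℚ E} (hS : #S < 𝔠) (a : E) :
    #(S ⊔ span ℚ {a} : Submodule ℚ E) < 𝔠 := by
  have h : S ⊔ span ℚ {a} = span ℚ ((S : Set E) ∪ {a}) := by
    rw [span_union, span_eq]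
  rw [h]
  apply mk_span_lt
  refine (mk_union_le _ _).trans_lt ?_
  refine add_lt_of_lt aleph0_le_continuum hS ?_
  rw [mk_singleton]
  exact one_lt_aleph0.trans aleph0_lt_continuum

theorem exists_avoid {ι : Type} (hι : #ι < 𝔠) (s : ι → Set ℝ) (hs : ∀ i, (s i).Finite) :
    ∃ t, ∀ i, t ∉ s i := by
  by_contra h
  push Not at h
  have h1 : (univ : Set ℝ) ⊆ ⋃ i, s i := fun t _ => mem_iUnion.2 (h t)
  have h2 : 𝔠 ≤ #(⋃ i, s i) := by
    have := mk_le_mk_of_subset h1
    rwa [mk_univ, mk_real] at this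
  have h3 : #(⋃ i, s i) ≤ #ι * ℵ₀ := by
    refine (mk_iUnion_le _).trans ?_
    refine mul_le_mul_right ?_ _
    exact ciSup_le' fun i => (hs i).countable.le_aleph0
  exact absurd (h2.trans h3) (not_le.2 (mul_lt_of_lt aleph0_le_continuum hι aleph0_lt_continuum))

/-- the roots of a nonzero polynomial of degree at most two -/
theorem finite_quad (A B C : ℝ) (h : A ≠ 0 ∨ B ≠ 0) :
    {t : ℝ | A * t ^ 2 + B * t + C = 0}.Finite := by
  have h1 : (Polynomial.C A * Polynomial.X ^ 2 + Polynomial.C B * Polynomial.X +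
      Polynomial.C C : Polynomial ℝ) ≠ 0 := by
    intro h0
    rcases h with h | h
    · apply h
      have := congrArg (fun q => Polynomial.coeff q 2) h0
      simpa [Polynomial.coeff_X, Polynomial.coeff_C] using this
    · apply h
      have := congrArg (fun q => Polynomial.coeff q 1) h0
      simpa [Polynomial.coeff_X, Polynomial.coeff_C] using this
  refine (Polynomial.finite_setOfPred_isRoot h1).subset ?_
  intro t ht
  simp only [mem_ofPred_eq] at ht
  simp only [mem_ofPred_eq, Polynomial.IsRoot]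
  simpa using ht

theorem finite_lin (B C : ℝ) (h : B ≠ 0 ∨ C ≠ 0) : {t : ℝ | B * t + C = 0}.Finite := by
  by_cases hB : B = 0
  · have hC : C ≠ 0 := by
      rcases h with h | h
      · exact absurd hB h
      · exact h
    have : {t : ℝ | B * t + C = 0} = ∅ := by
      ext t
      simp [hB, hC]
    rw [this]
    exact finite_empty
  · have := finite_quad 0 B C (Or.inr hB)
    refine this.subset ?_
    intro t ht
    simp only [mem_ofPred_eq] at ht ⊢
    linarith

/-- generic points exist -/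
theorem exists_gen {L : Submodule ℚ E} (hL : #L < 𝔠) : ∃ p, Gen L p := by
  have hι : #(L × L) < 𝔠 := by
    rw [mk_prod, lift_id]
    exact mul_lt_of_lt aleph0_le_continuum hL hL
  obtain ⟨t, ht⟩ := exists_avoid hι
    (fun i => {t : ℝ | (i.2 : E) ≠ 0 ∧ cr ((t, t ^ 2) - (i.1 : E)) i.2 = 0}) (by
      intro i
      by_cases hd : (i.2 : E) = 0
      · simp [hd]
      · have hd' : (i.2 : E).1 ≠ 0 ∨ (i.2 : E).2 ≠ 0 := by
          by_contra h
          push Not at h
          exact hd (Prod.ext h.1 h.2)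
        refine (finite_quad (-(i.2 : E).1) (i.2 : E).2
          ((i.1 : E).2 * (i.2 : E).1 - (i.1 : E).1 * (i.2 : E).2) ?_).subset ?_
        · rcases hd' with h | h
          · exact Or.inl (neg_ne_zero.2 h)
          · exact Or.inr h
        · rintro t ⟨-, ht⟩
          simp only [cr, Prod.fst_sub, Prod.snd_sub] at ht
          simp only [mem_ofPred_eq]
          linear_combination ht)
  refine ⟨(t, t ^ 2), fun a ha d hd hd0 h0 => ?_⟩
  exact ht (⟨a, ha⟩, ⟨d, hd⟩) ⟨hd0, h0⟩

/-- the directions -/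
abbrev Dir := {u : E // u ≠ 0}

/-- coloured points -/
abbrev CP := E × (Dir → Bool)

/-- the points with colour `b` in the direction `δ` -/
def cls (S : Set CP) (δ : Dir) (b : Bool) : Set E := {x | ∃ κ, (x, κ) ∈ S ∧ κ δ = b}

theorem cls_mono {S T : Set CP} (h : S ⊆ T) (δ : Dir) (b : Bool) : cls S δ b ⊆ cls T δ b :=
  fun _ ⟨κ, h1, h2⟩ => ⟨κ, h h1, h2⟩

/-- the partial constructions -/
structure Good (S : Set CP) : Prop where
  inj : ∀ p ∈ S, ∀ q ∈ S, p.1 = q.1 → p = q
  sep : ∀ p ∈ S, ∀ q ∈ S, p ≠ q → ∀ δ : Dir, cr (p.1 - q.1) δ = 0 → p.2 δ ≠ q.2 δ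
  ind : ∀ δ b, LinearIndepOn ℚ id (cls S δ b)

theorem Good.mono {S T : Set CP} (hT : Good T) (h : S ⊆ T) : Good S where
  inj p hp q hq := hT.inj p (h hp) q (h hq)
  sep p hp q hq := hT.sep p (h hp) q (h hq)
  ind δ b := (hT.ind δ b).mono (cls_mono h δ b)

/-- no three points on a line -/
theorem Good.no_three {S : Set CP} (hS : Good S) {p q r : CP} (hp : p ∈ S) (hq : q ∈ S)
    (hr : r ∈ S) (hpq : p ≠ q) (hpr : p ≠ r) (hqr : q ≠ r) {d : E} (hd : d ≠ 0)
    (h1 : cr (p.1 - q.1) d = 0) (h2 : cr (p.1 - r.1) d = 0) : False := by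
  have a := hS.sep p hp q hq hpq ⟨d, hd⟩ h1
  have b := hS.sep p hp r hr hpr ⟨d, hd⟩ h2
  have c := hS.sep q hq r hr hqr ⟨d, hd⟩ (by
    have : q.1 - r.1 = (p.1 - r.1) - (p.1 - q.1) := by abel
    show cr (q.1 - r.1) d = 0
    rw [this, cr_sub_left, h1, h2, sub_zero])
  generalize p.2 ⟨d, hd⟩ = x at *
  generalize q.2 ⟨d, hd⟩ = y at *
  generalize r.2 ⟨d, hd⟩ = z at *
  revert a b c
  revert x y z
  decide

theorem cls_insert (S : Set CP) (c : CP) (δ : Dir) (b : Bool) :
    cls (insert c S) δ b ⊆ insert c.1 (cls S δ b) := by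
  rintro x ⟨κ, h | h, hb⟩
  · left; rw [← h]
  · right; exact ⟨κ, h, hb⟩

theorem cls_insert_ne (S : Set CP) (c : CP) (δ : Dir) (b : Bool) (hc : c.2 δ ≠ b) :
    cls (insert c S) δ b ⊆ cls S δ b := by
  rintro x ⟨κ, h | h, hb⟩
  · exfalso; apply hc; rw [← h]; exact hb
  · exact ⟨κ, h, hb⟩

theorem mk_pts_lt {S : Set CP} (hc : #S < 𝔠) : #(Prod.fst '' S) < 𝔠 := mk_image_le.trans_lt hc

theorem cls_subset (S : Set CP) (δ : Dir) (b : Bool) : cls S δ b ⊆ Prod.fst '' S :=
  fun x ⟨κ, h, _⟩ => ⟨(x, κ), h, rfl⟩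

/-- **Adding one point on a line.** -/
theorem add_one {S : Set CP} (hS : Good S) (hc : #S < 𝔠) (u : Dir) (t : ℝ)
    (hno : ∀ p ∈ S, ∀ q ∈ S, cr p.1 u = t → cr q.1 u = t → p = q) :
    ∃ c : CP, c ∉ S ∧ cr c.1 u = t ∧ Good (insert c S) := by
  classical
  obtain ⟨u, hu⟩ := u
  simp only at hno ⊢
  have hu' : u.1 ^ 2 + u.2 ^ 2 ≠ 0 := by
    intro h
    apply hu
    have h1 : u.1 = 0 := by nlinarith [sq_nonneg u.1, sq_nonneg u.2]
    have h2 : u.2 = 0 := by nlinarith [sq_nonneg u.1, sq_nonneg u.2]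
    exact Prod.ext h1 h2
  obtain ⟨x0, hx0⟩ : ∃ x0 : E, cr x0 u = t := by
    refine ⟨(t * u.2 / (u.1 ^ 2 + u.2 ^ 2), -(t * u.1) / (u.1 ^ 2 + u.2 ^ 2)), ?_⟩
    simp only [cr]
    field_simp
    ring
  set P : Set E := Prod.fst '' S with hP
  have hPc : #P < 𝔠 := mk_pts_lt hc
  have hspan : #(span ℚ P) < 𝔠 := mk_span_lt _ hPc
  have hι : #((span ℚ P) ⊕ (S × S)) < 𝔠 := by
    rw [mk_sum, lift_id, lift_id, mk_prod, lift_id]
    exact add_lt_of_lt aleph0_le_continuum hspan (mul_lt_of_lt aleph0_le_continuum hc hc)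
  obtain ⟨s, hs⟩ := exists_avoid hι
    (fun i => match i with
      | Sum.inl z => {s : ℝ | x0 + s • u = z}
      | Sum.inr ab => {s : ℝ | (ab.1 : CP) ≠ ab.2 ∧
          cr (x0 + s • u - (ab.1 : CP).1) ((ab.1 : CP).1 - (ab.2 : CP).1) = 0}) (by
      intro i
      rcases i with z | ⟨a, b⟩
      · refine Set.Subsingleton.finite ?_
        intro s hs s' hs'
        simp only [mem_ofPred_eq] at hs hs'
        have h1 : s • u = s' • u := by
          have := hs.trans hs'.symm
          exact add_left_cancel this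
        exact smul_left_injective ℝ hu h1
      · by_cases hab : (a : CP) = b
        · simp [hab]
        · set d := (a : CP).1 - (b : CP).1 with hd
          have hd0 : d ≠ 0 := by
            intro h0
            exact hab (hS.inj _ a.2 _ b.2 (sub_eq_zero.1 h0))
          refine (finite_lin (cr u d) (cr (x0 - (a : CP).1) d) ?_).subset ?_
          · by_contra hcon
            push Not at hcon
            obtain ⟨h1, h2⟩ := hcon
            have h3 : cr (x0 - (a : CP).1) u = 0 := cr_par hd0 h2 h1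
            have h4 : cr (a : CP).1 u = t := by
              rw [cr_sub_left, hx0] at h3; linarith
            have h5 : cr (b : CP).1 u = t := by
              have h6 : cr d u = 0 := by rw [cr_comm, h1, neg_zero]
              rw [hd, cr_sub_left, h4] at h6
              linarith
            exact hab (hno _ a.2 _ b.2 h4 h5)
          · rintro s ⟨-, hs⟩
            rw [← hd] at hs
            simp only [mem_ofPred_eq]
            simp only [cr, Prod.fst_sub, Prod.snd_sub, Prod.fst_add, Prod.snd_add,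
              Prod.smul_fst, Prod.smul_snd, smul_eq_mul] at hs ⊢
            linear_combination hs)
  set p : E := x0 + s • u with hp
  have hp1 : p ∉ span ℚ P := by
    intro h
    exact hs (Sum.inl ⟨p, h⟩) rfl
  have hp2 : ∀ a ∈ S, ∀ b ∈ S, a ≠ b → cr (p - a.1) (a.1 - b.1) ≠ 0 := by
    intro a ha b hb hab h
    exact hs (Sum.inr (⟨a, ha⟩, ⟨b, hb⟩)) ⟨hab, h⟩
  have huniq : ∀ a ∈ S, ∀ b ∈ S, ∀ δ : Dir, cr (p - a.1) δ = 0 → cr (p - b.1) δ = 0 → a = b := by
    intro a ha b hb δ h1 h2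
    by_contra hab
    apply hp2 a ha b hb hab
    have h3 : cr (a.1 - b.1) (δ : E) = 0 := by
      have : a.1 - b.1 = (p - b.1) - (p - a.1) := by abel
      rw [this, cr_sub_left, h1, h2, sub_zero]
    exact cr_par δ.2 h1 h3
  let κ : Dir → Bool := fun δ =>
    if h : ∃ q ∈ S, cr (p - q.1) (δ : E) = 0 then ! (Classical.choose h).2 δ else true
  have hκ : ∀ q ∈ S, ∀ δ : Dir, cr (p - q.1) (δ : E) = 0 → κ δ ≠ q.2 δ := by
    intro q hq δ h
    have hex : ∃ q ∈ S, cr (p - q.1) (δ : E) = 0 := ⟨q, hq, h⟩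
    have h1 := Classical.choose_spec hex
    have h2 : Classical.choose hex = q := huniq _ h1.1 _ hq δ h1.2 h
    have h3 : κ δ = ! q.2 δ := by
      simp only [κ, dif_pos hex, h2]
    rw [h3]
    cases q.2 δ <;> simp
  have hpS : ∀ q ∈ S, p ≠ q.1 := by
    intro q hq h
    exact hp1 (h ▸ subset_span ⟨q, hq, rfl⟩)
  refine ⟨(p, κ), ?_, ?_, ?_, ?_, ?_⟩
  · intro h
    exact hpS _ h rfl
  · show cr p u = t
    rw [hp]
    simp only [cr, Prod.fst_add, Prod.snd_add, Prod.smul_fst, Prod.smul_snd,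
      smul_eq_mul] at hx0 ⊢
    linear_combination hx0
  · rintro a (rfl | ha) b (rfl | hb) h
    · rfl
    · exact absurd h (hpS _ hb)
    · exact absurd h.symm (hpS _ ha)
    · exact hS.inj a ha b hb h
  · rintro a (rfl | ha) b (rfl | hb) hab δ h
    · exact absurd rfl hab
    · exact hκ b hb δ h
    · refine (hκ a ha δ ?_).symm
      show cr (p - a.1) (δ : E) = 0
      have : p - a.1 = - (a.1 - p) := by abel
      rw [this]
      simp only [cr, Prod.fst_neg, Prod.snd_neg] at h ⊢
      linear_combination -h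
    · exact hS.sep a ha b hb hab δ h
  · intro δ b
    refine LinearIndepOn.mono ?_ (cls_insert S (p, κ) δ b)
    refine (hS.ind δ b).id_insert ?_
    intro h
    exact hp1 (span_mono (cls_subset S δ b) h)

end Pool.Agent.X237.TP
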