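import Pool.Agent.X237.TP.Step

/-!
# Two-point sets and Hamel bases: adding three points with a given sum
-/

set_option autoImplicit false

namespace Pool.Agent.X237.TP

open Set Cardinal Submodule

namespace Pair

variable {L : Submodule ℚ E} {p1 p2 : E}

/-- vectors with non-proportional rational coordinates are not parallel -/
theorem excl (h : Pair L p1 p2) {a b a' b' : ℚ} {l l' : E} (hl : l ∈ L) (hl' : l' ∈ L)
    {d : E} (hd : d ≠ 0) (hdet : a * b' - a' * b ≠ 0)
    (h1 : cr (a • p1 + b • p2 + l) d = 0) (h2 : cr (a' • p1 + b' • p2 + l') d = 0) : False := by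
  have hab : a ≠ 0 ∨ b ≠ 0 := by
    by_contra hcon
    push Not at hcon
    apply hdet
    rw [hcon.1, hcon.2]; ring
  obtain ⟨r, h3, h4, -⟩ := h.par hl hl' hab (cr_par hd h1 h2)
  apply hdet
  rw [h3, h4]; ring

theorem same (h : Pair L p1 p2) {a b : ℚ} {l l' : E} (hl : l ∈ L) (hl' : l' ∈ L)
    {d : E} (hd : d ≠ 0) (hab : a ≠ 0 ∨ b ≠ 0)
    (h1 : cr (a • p1 + b • p2 + l) d = 0) (h2 : cr (a • p1 + b • p2 + l') d = 0) : l = l' := by
  obtain ⟨r, h3, h4, h5⟩ := h.par hl hl' hab (cr_par hd h1 h2)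
  have hr : r = 1 := by
    rcases hab with h' | h'
    · have : (r - 1) * a = 0 := by linarith
      rcases mul_eq_zero.1 this with h'' | h''
      · linarith
      · exact absurd h'' h'
    · have : (r - 1) * b = 0 := by linarith
      rcases mul_eq_zero.1 this with h'' | h''
      · linarith
      · exact absurd h'' h'
  rw [h5, hr, one_smul]

theorem notpar (h : Pair L p1 p2) {a b : ℚ} {l d : E} (hl : l ∈ L) (hd : d ∈ L) (hd0 : d ≠ 0)
    (hab : a ≠ 0 ∨ b ≠ 0) : cr (a • p1 + b • p2 + l) d ≠ 0 := by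
  intro h0
  have h1 : cr (a • p1 + b • p2 + l) ((0 : ℚ) • p1 + (0 : ℚ) • p2 + d) = 0 := by
    simpa using h0
  obtain ⟨r, h3, h4, h5⟩ := h.par hl hd hab h1
  have hr : r = 0 := by
    rcases hab with h' | h'
    · rcases mul_eq_zero.1 h3.symm with h'' | h''
      · exact h''
      · exact absurd h'' h'
    · rcases mul_eq_zero.1 h4.symm with h'' | h''
      · exact h''
      · exact absurd h'' h'
  apply hd0
  rw [h5, hr, zero_smul]

end Pair

/-- independence of two further vectors -/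
theorem ind_two {L : Submodule ℚ E} {x y : E} {X : Set E} (hX : LinearIndepOn ℚ id X)
    (hXL : X ⊆ L) (h : ∀ a b : ℚ, ∀ l ∈ L, a • x + b • y + l = 0 → a = 0 ∧ b = 0) :
    LinearIndepOn ℚ id (insert x (insert y X)) := by
  have hsp : span ℚ X ≤ L := span_le.2 hXL
  refine (hX.id_insert ?_).id_insert ?_
  · intro hy
    have := (h 0 1 (-y) (neg_mem (hsp hy)) (by simp)).2
    exact one_ne_zero this
  · intro hx
    obtain ⟨a, z, hz, hxz⟩ := mem_span_insert.1 hx
    have := (h 1 (-a) (-z) (neg_mem (hsp hz)) (by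
      rw [one_smul, neg_smul]
      nth_rw 1 [hxz]
      abel)).1
    exact one_ne_zero this

/-- inserting a point, the first two conditions -/
def Pre (S : Set CP) : Prop :=
  (∀ p ∈ S, ∀ q ∈ S, p.1 = q.1 → p = q) ∧
  (∀ p ∈ S, ∀ q ∈ S, p ≠ q → ∀ δ : Dir, cr (p.1 - q.1) δ = 0 → p.2 δ ≠ q.2 δ)

theorem Pre.ins {S : Set CP} (hS : Pre S) (c : CP) (h1 : ∀ q ∈ S, c.1 ≠ q.1)
    (h2 : ∀ q ∈ S, ∀ δ : Dir, cr (c.1 - q.1) δ = 0 → c.2 δ ≠ q.2 δ) : Pre (insert c S) := by
  constructor
  · rintro a (rfl | ha) b (rfl | hb) h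
    · rfl
    · exact absurd h (h1 _ hb)
    · exact absurd h.symm (h1 _ ha)
    · exact hS.1 a ha b hb h
  · rintro a (rfl | ha) b (rfl | hb) hab δ h
    · exact absurd rfl hab
    · exact h2 b hb δ h
    · refine (h2 a ha δ ?_).symm
      have : b.1 - a.1 = - (a.1 - b.1) := by abel
      rw [this]
      simp only [cr, Prod.fst_neg, Prod.snd_neg] at h ⊢
      linear_combination -h
    · exact hS.2 a ha b hb hab δ h

/-- **Adding three points with a given sum.** -/
theorem add_three {S : Set CP} (hS : Good S) (hc : #S < 𝔠) (u : Dir) (v : E) (b : Bool)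
    (hv : v ∉ span ℚ (cls S u b)) :
    ∃ c1 c2 c3 : CP, Good (insert c1 (insert c2 (insert c3 S))) ∧
      c1.2 u = b ∧ c2.2 u = b ∧ c3.2 u = b ∧ c1.1 + c2.1 + c3.1 = v := by
  classical
  set P : Set E := Prod.fst '' S with hPdef
  have hPc : #(P ∪ {v, (u : E)} : Set E) < 𝔠 := by
    refine (mk_union_le _ _).trans_lt ?_
    refine add_lt_of_lt aleph0_le_continuum (mk_pts_lt hc) ?_
    exact (Set.Finite.lt_aleph0 (by simp)).trans aleph0_lt_continuum
  set L : Submodule ℚ E := span ℚ (P ∪ {v, (u : E)}) with hL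
  have hLc : #L < 𝔠 := mk_span_lt _ hPc
  have hPL : ∀ q ∈ S, q.1 ∈ L := fun q hq => subset_span (Or.inl ⟨q, hq, rfl⟩)
  have hvL : v ∈ L := subset_span (Or.inr (by simp))
  have huL : (u : E) ∈ L := subset_span (Or.inr (by simp))
  obtain ⟨p1, hp1⟩ := exists_gen hLc
  obtain ⟨p2, hp2⟩ := exists_gen (mk_sup_lt hLc p1)
  have hP : Pair L p1 p2 := ⟨⟨u, huL, u.2⟩, hp1, hp2⟩
  set p3 : E := v - p1 - p2 with hp3
  -- the differences
  have e1 : ∀ q : E, p1 - q = (1 : ℚ) • p1 + (0 : ℚ) • p2 + (-q) := by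
    intro q; rw [one_smul, zero_smul]; abel
  have e2 : ∀ q : E, p2 - q = (0 : ℚ) • p1 + (1 : ℚ) • p2 + (-q) := by
    intro q; rw [one_smul, zero_smul]; abel
  have e3 : ∀ q : E, p3 - q = (-1 : ℚ) • p1 + (-1 : ℚ) • p2 + (v - q) := by
    intro q; rw [hp3, neg_smul, neg_smul, one_smul, one_smul]; abel
  have e12 : p1 - p2 = (1 : ℚ) • p1 + (-1 : ℚ) • p2 + 0 := by
    rw [neg_smul, one_smul, one_smul]; abel
  have e13 : p1 - p3 = (2 : ℚ) • p1 + (1 : ℚ) • p2 + (-v) := by
    rw [hp3, two_smul, one_smul]; abel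
  have e23 : p2 - p3 = (1 : ℚ) • p1 + (2 : ℚ) • p2 + (-v) := by
    rw [hp3, two_smul, one_smul]; abel
  -- the colours
  have hcol : ∀ δ : Dir, ∃ k1 k2 k3 : Bool,
      (∀ q ∈ S, cr (p1 - q.1) δ = 0 → k1 ≠ q.2 δ) ∧
      (∀ q ∈ S, cr (p2 - q.1) δ = 0 → k2 ≠ q.2 δ) ∧
      (∀ q ∈ S, cr (p3 - q.1) δ = 0 → k3 ≠ q.2 δ) ∧
      (cr (p1 - p2) δ = 0 → k1 ≠ k2) ∧ (cr (p1 - p3) δ = 0 → k1 ≠ k3) ∧
      (cr (p2 - p3) δ = 0 → k2 ≠ k3) ∧
      (δ = u → k1 = b ∧ k2 = b ∧ k3 = b) ∧ (δ ≠ u → ¬ (k1 = k2 ∧ k2 = k3)) := by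
    intro δ
    by_cases hδ : δ = u
    · subst hδ
      refine ⟨b, b, b, ?_, ?_, ?_, ?_, ?_, ?_, fun _ => ⟨rfl, rfl, rfl⟩, fun h => absurd rfl h⟩
      · intro q hq h0
        rw [e1] at h0
        exact absurd h0 (hP.notpar (neg_mem (hPL q hq)) huL δ.2 (Or.inl one_ne_zero))
      · intro q hq h0
        rw [e2] at h0
        exact absurd h0 (hP.notpar (neg_mem (hPL q hq)) huL δ.2 (Or.inr one_ne_zero))
      · intro q hq h0
        rw [e3] at h0
        exact absurd h0 (hP.notpar (sub_mem hvL (hPL q hq)) huL δ.2 (Or.inl (by norm_num)))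
      · intro h0
        rw [e12] at h0
        exact absurd h0 (hP.notpar (zero_mem _) huL δ.2 (Or.inl one_ne_zero))
      · intro h0
        rw [e13] at h0
        exact absurd h0 (hP.notpar (neg_mem hvL) huL δ.2 (Or.inl two_ne_zero))
      · intro h0
        rw [e23] at h0
        exact absurd h0 (hP.notpar (neg_mem hvL) huL δ.2 (Or.inl one_ne_zero))
    · -- the exclusions
      have x12 : ∀ q ∈ S, ∀ q' ∈ S, cr (p1 - q.1) δ = 0 → cr (p2 - q'.1) δ = 0 → False := by
        intro q hq q' hq' h h'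
        rw [e1] at h; rw [e2] at h'
        exact hP.excl (neg_mem (hPL q hq)) (neg_mem (hPL q' hq')) δ.2 (by norm_num) h h'
      have x13 : ∀ q ∈ S, ∀ q' ∈ S, cr (p1 - q.1) δ = 0 → cr (p3 - q'.1) δ = 0 → False := by
        intro q hq q' hq' h h'
        rw [e1] at h; rw [e3] at h'
        exact hP.excl (neg_mem (hPL q hq)) (sub_mem hvL (hPL q' hq')) δ.2 (by norm_num) h h'
      have x23 : ∀ q ∈ S, ∀ q' ∈ S, cr (p2 - q.1) δ = 0 → cr (p3 - q'.1) δ = 0 → False := by
        intro q hq q' hq' h h'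
        rw [e2] at h; rw [e3] at h'
        exact hP.excl (neg_mem (hPL q hq)) (sub_mem hvL (hPL q' hq')) δ.2 (by norm_num) h h'
      have y112 : ∀ q ∈ S, cr (p1 - q.1) δ = 0 → cr (p1 - p2) δ = 0 → False := by
        intro q hq h h'
        rw [e1] at h; rw [e12] at h'
        exact hP.excl (neg_mem (hPL q hq)) (zero_mem _) δ.2 (by norm_num) h h'
      have y113 : ∀ q ∈ S, cr (p1 - q.1) δ = 0 → cr (p1 - p3) δ = 0 → False := by
        intro q hq h h'
        rw [e1] at h; rw [e13] at h'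
        exact hP.excl (neg_mem (hPL q hq)) (neg_mem hvL) δ.2 (by norm_num) h h'
      have y123 : ∀ q ∈ S, cr (p1 - q.1) δ = 0 → cr (p2 - p3) δ = 0 → False := by
        intro q hq h h'
        rw [e1] at h; rw [e23] at h'
        exact hP.excl (neg_mem (hPL q hq)) (neg_mem hvL) δ.2 (by norm_num) h h'
      have y212 : ∀ q ∈ S, cr (p2 - q.1) δ = 0 → cr (p1 - p2) δ = 0 → False := by
        intro q hq h h'
        rw [e2] at h; rw [e12] at h'
        exact hP.excl (neg_mem (hPL q hq)) (zero_mem _) δ.2 (by norm_num) h h'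
      have y213 : ∀ q ∈ S, cr (p2 - q.1) δ = 0 → cr (p1 - p3) δ = 0 → False := by
        intro q hq h h'
        rw [e2] at h; rw [e13] at h'
        exact hP.excl (neg_mem (hPL q hq)) (neg_mem hvL) δ.2 (by norm_num) h h'
      have y223 : ∀ q ∈ S, cr (p2 - q.1) δ = 0 → cr (p2 - p3) δ = 0 → False := by
        intro q hq h h'
        rw [e2] at h; rw [e23] at h'
        exact hP.excl (neg_mem (hPL q hq)) (neg_mem hvL) δ.2 (by norm_num) h h'
      have y312 : ∀ q ∈ S, cr (p3 - q.1) δ = 0 → cr (p1 - p2) δ = 0 → False := by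
        intro q hq h h'
        rw [e3] at h; rw [e12] at h'
        exact hP.excl (sub_mem hvL (hPL q hq)) (zero_mem _) δ.2 (by norm_num) h h'
      have y313 : ∀ q ∈ S, cr (p3 - q.1) δ = 0 → cr (p1 - p3) δ = 0 → False := by
        intro q hq h h'
        rw [e3] at h; rw [e13] at h'
        exact hP.excl (sub_mem hvL (hPL q hq)) (neg_mem hvL) δ.2 (by norm_num) h h'
      have y323 : ∀ q ∈ S, cr (p3 - q.1) δ = 0 → cr (p2 - p3) δ = 0 → False := by
        intro q hq h h'
        rw [e3] at h; rw [e23] at h'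
        exact hP.excl (sub_mem hvL (hPL q hq)) (neg_mem hvL) δ.2 (by norm_num) h h'
      have z1213 : cr (p1 - p2) δ = 0 → cr (p1 - p3) δ = 0 → False := by
        intro h h'
        rw [e12] at h; rw [e13] at h'
        exact hP.excl (zero_mem _) (neg_mem hvL) δ.2 (by norm_num) h h'
      have z1223 : cr (p1 - p2) δ = 0 → cr (p2 - p3) δ = 0 → False := by
        intro h h'
        rw [e12] at h; rw [e23] at h'
        exact hP.excl (zero_mem _) (neg_mem hvL) δ.2 (by norm_num) h h'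
      have z1323 : cr (p1 - p3) δ = 0 → cr (p2 - p3) δ = 0 → False := by
        intro h h'
        rw [e13] at h; rw [e23] at h'
        exact hP.excl (neg_mem hvL) (neg_mem hvL) δ.2 (by norm_num) h h'
      -- uniqueness
      have u1 : ∀ q ∈ S, ∀ q' ∈ S, cr (p1 - q.1) δ = 0 → cr (p1 - q'.1) δ = 0 → q = q' := by
        intro q hq q' hq' h h'
        rw [e1] at h h'
        exact hS.inj q hq q' hq' (neg_injective
          (hP.same (neg_mem (hPL q hq)) (neg_mem (hPL q' hq')) δ.2 (Or.inl one_ne_zero) h h'))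
      have u2 : ∀ q ∈ S, ∀ q' ∈ S, cr (p2 - q.1) δ = 0 → cr (p2 - q'.1) δ = 0 → q = q' := by
        intro q hq q' hq' h h'
        rw [e2] at h h'
        exact hS.inj q hq q' hq' (neg_injective
          (hP.same (neg_mem (hPL q hq)) (neg_mem (hPL q' hq')) δ.2 (Or.inr one_ne_zero) h h'))
      have u3 : ∀ q ∈ S, ∀ q' ∈ S, cr (p3 - q.1) δ = 0 → cr (p3 - q'.1) δ = 0 → q = q' := by
        intro q hq q' hq' h h'
        rw [e3] at h h'
        have := hP.same (sub_mem hvL (hPL q hq)) (sub_mem hvL (hPL q' hq')) δ.2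
          (Or.inl (by norm_num)) h h'
        exact hS.inj q hq q' hq' (sub_right_injective this)
      by_cases c1 : ∃ q ∈ S, cr (p1 - q.1) δ = 0
      · obtain ⟨q, hq, h⟩ := c1
        refine ⟨! q.2 δ, q.2 δ, q.2 δ, ?_, ?_, ?_, ?_, ?_, ?_, fun h => absurd h hδ, fun _ => ?_⟩
        · intro q' hq' h'
          rw [← u1 q hq q' hq' h h']
          cases q.2 δ <;> simp
        · intro q' hq' h'; exact (x12 q hq q' hq' h h').elim
        · intro q' hq' h'; exact (x13 q hq q' hq' h h').elim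
        · intro h'; exact (y112 q hq h h').elim
        · intro h'; exact (y113 q hq h h').elim
        · intro h'; exact (y123 q hq h h').elim
        · cases q.2 δ <;> simp
      by_cases c2 : ∃ q ∈ S, cr (p2 - q.1) δ = 0
      · obtain ⟨q, hq, h⟩ := c2
        refine ⟨q.2 δ, ! q.2 δ, q.2 δ, ?_, ?_, ?_, ?_, ?_, ?_, fun h => absurd h hδ, fun _ => ?_⟩
        · intro q' hq' h'; exact (x12 q' hq' q hq h' h).elim
        · intro q' hq' h'
          rw [← u2 q hq q' hq' h h']
          cases q.2 δ <;> simp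
        · intro q' hq' h'; exact (x23 q hq q' hq' h h').elim
        · intro h'; exact (y212 q hq h h').elim
        · intro h'; exact (y213 q hq h h').elim
        · intro h'; exact (y223 q hq h h').elim
        · cases q.2 δ <;> simp
      by_cases c3 : ∃ q ∈ S, cr (p3 - q.1) δ = 0
      · obtain ⟨q, hq, h⟩ := c3
        refine ⟨q.2 δ, q.2 δ, ! q.2 δ, ?_, ?_, ?_, ?_, ?_, ?_, fun h => absurd h hδ, fun _ => ?_⟩
        · intro q' hq' h'; exact (x13 q' hq' q hq h' h).elim
        · intro q' hq' h'; exact (x23 q' hq' q hq h' h).elim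
        · intro q' hq' h'
          rw [← u3 q hq q' hq' h h']
          cases q.2 δ <;> simp
        · intro h'; exact (y312 q hq h h').elim
        · intro h'; exact (y313 q hq h h').elim
        · intro h'; exact (y323 q hq h h').elim
        · cases q.2 δ <;> simp
      by_cases c4 : cr (p1 - p2) δ = 0
      · refine ⟨true, false, true, ?_, ?_, ?_, ?_, ?_, ?_, fun h => absurd h hδ, fun _ => ?_⟩
        · intro q hq h; exact absurd ⟨q, hq, h⟩ c1
        · intro q hq h; exact absurd ⟨q, hq, h⟩ c2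
        · intro q hq h; exact absurd ⟨q, hq, h⟩ c3
        · intro _; simp
        · intro h; exact (z1213 c4 h).elim
        · intro h; exact (z1223 c4 h).elim
        · simp
      by_cases c5 : cr (p1 - p3) δ = 0
      · refine ⟨true, true, false, ?_, ?_, ?_, ?_, ?_, ?_, fun h => absurd h hδ, fun _ => ?_⟩
        · intro q hq h; exact absurd ⟨q, hq, h⟩ c1
        · intro q hq h; exact absurd ⟨q, hq, h⟩ c2
        · intro q hq h; exact absurd ⟨q, hq, h⟩ c3
        · intro h; exact absurd h c4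
        · intro _; simp
        · intro h; exact (z1323 c5 h).elim
        · simp
      · refine ⟨true, true, false, ?_, ?_, ?_, ?_, ?_, ?_, fun h => absurd h hδ, fun _ => ?_⟩
        · intro q hq h; exact absurd ⟨q, hq, h⟩ c1
        · intro q hq h; exact absurd ⟨q, hq, h⟩ c2
        · intro q hq h; exact absurd ⟨q, hq, h⟩ c3
        · intro h; exact absurd h c4
        · intro h; exact absurd h c5
        · intro _; simp
        · simp
  choose κ1 κ2 κ3 k1 k2 k3 k12 k13 k23 ku kn using hcol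
  -- the points are new
  have hnz : ∀ {α β : ℚ} {l : E}, l ∈ L → (α ≠ 0 ∨ β ≠ 0) → α • p1 + β • p2 + l ≠ 0 := by
    intro α β l hl hab h0
    obtain ⟨h1, h2⟩ := hP.indep hl h0
    rcases hab with h | h
    · exact h h1
    · exact h h2
  have n1 : ∀ q ∈ S, p1 ≠ q.1 := fun q hq h => hnz (neg_mem (hPL q hq)) (Or.inl one_ne_zero)
    ((e1 q.1).symm.trans (sub_eq_zero.2 h))
  have n2 : ∀ q ∈ S, p2 ≠ q.1 := fun q hq h => hnz (neg_mem (hPL q hq)) (Or.inr one_ne_zero)
    ((e2 q.1).symm.trans (sub_eq_zero.2 h))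
  have n3 : ∀ q ∈ S, p3 ≠ q.1 := fun q hq h => hnz (sub_mem hvL (hPL q hq))
    (Or.inl (by norm_num)) ((e3 q.1).symm.trans (sub_eq_zero.2 h))
  have n12 : p1 ≠ p2 := fun h => hnz (zero_mem _) (Or.inl one_ne_zero)
    (e12.symm.trans (sub_eq_zero.2 h))
  have n13 : p1 ≠ p3 := fun h => hnz (neg_mem hvL) (Or.inl two_ne_zero)
    (e13.symm.trans (sub_eq_zero.2 h))
  have n23 : p2 ≠ p3 := fun h => hnz (neg_mem hvL) (Or.inl one_ne_zero)
    (e23.symm.trans (sub_eq_zero.2 h))
  have hpre : Pre (insert (p1, κ1) (insert (p2, κ2) (insert (p3, κ3) S))) := by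
    refine Pre.ins (Pre.ins (Pre.ins ⟨hS.inj, hS.sep⟩ _ n3 ?_) _ ?_ ?_) _ ?_ ?_
    · intro q hq δ h; exact k3 δ q hq h
    · rintro q (rfl | hq)
      · exact n23
      · exact n2 q hq
    · rintro q (rfl | hq) δ h
      · exact k23 δ h
      · exact k2 δ q hq h
    · rintro q (rfl | rfl | hq)
      · exact n12
      · exact n13
      · exact n1 q hq
    · rintro q (rfl | rfl | hq) δ h
      · exact k12 δ h
      · exact k13 δ h
      · exact k1 δ q hq h
  -- the classes
  have hcls : ∀ (δ : Dir) (c : Bool),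
      cls (insert (p1, κ1) (insert (p2, κ2) (insert (p3, κ3) S))) δ c ⊆
        {x | (x = p1 ∧ κ1 δ = c) ∨ (x = p2 ∧ κ2 δ = c) ∨ (x = p3 ∧ κ3 δ = c) ∨
          x ∈ cls S δ c} := by
    rintro δ c x ⟨κ, h | h | h | h, hb⟩
    · left
      rw [Prod.mk.injEq] at h
      exact ⟨h.1, h.2 ▸ hb⟩
    · right; left
      rw [Prod.mk.injEq] at h
      exact ⟨h.1, h.2 ▸ hb⟩
    · right; right; left
      rw [mem_singleton_iff.symm] at h
      have h' : (x, κ) = (p3, κ3) := h
      rw [Prod.mk.injEq] at h'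
      exact ⟨h'.1, h'.2 ▸ hb⟩
    · right; right; right
      exact ⟨κ, h, hb⟩
  have hcL : ∀ (δ : Dir) (c : Bool), cls S δ c ⊆ L := by
    rintro δ c x ⟨κ, h, -⟩
    exact hPL _ h
  have i12 : ∀ (δ : Dir) (c : Bool), LinearIndepOn ℚ id (insert p1 (insert p2 (cls S δ c))) :=
    fun δ c => ind_two (hS.ind δ c) (hcL δ c) (fun α β l hl h0 => hP.indep hl h0)
  have i13 : ∀ (δ : Dir) (c : Bool), LinearIndepOn ℚ id (insert p1 (insert p3 (cls S δ c))) := by
    intro δ c
    refine ind_two (hS.ind δ c) (hcL δ c) (fun α β l hl h0 => ?_)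
    have h1 : (α - β) • p1 + (-β) • p2 + (β • v + l) = 0 := by
      rw [← h0, hp3]
      simp only [sub_smul, neg_smul, smul_sub]
      abel
    obtain ⟨h2, h3⟩ := hP.indep (add_mem (smul_mem _ _ hvL) hl) h1
    have h4 : β = 0 := by linarith
    exact ⟨by linarith, h4⟩
  have i23 : ∀ (δ : Dir) (c : Bool), LinearIndepOn ℚ id (insert p2 (insert p3 (cls S δ c))) := by
    intro δ c
    refine ind_two (hS.ind δ c) (hcL δ c) (fun α β l hl h0 => ?_)
    have h1 : (-β) • p1 + (α - β) • p2 + (β • v + l) = 0 := by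
      rw [← h0, hp3]
      simp only [sub_smul, neg_smul, smul_sub]
      abel
    obtain ⟨h2, h3⟩ := hP.indep (add_mem (smul_mem _ _ hvL) hl) h1
    have h4 : β = 0 := by linarith
    exact ⟨by linarith, h4⟩
  have i123 : LinearIndepOn ℚ id (insert p3 (insert p1 (insert p2 (cls S u b)))) := by
    refine (i12 u b).id_insert ?_
    intro h
    obtain ⟨α, z, hz, h1⟩ := mem_span_insert.1 h
    obtain ⟨β, y, hy, h2⟩ := mem_span_insert.1 hz
    have hyL : y ∈ L := span_le.2 (hcL u b) hy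
    have h3 : (1 + α) • p1 + (1 + β) • p2 + (y - v) = 0 := by
      have h4 : v - p1 - p2 = α • p1 + (β • p2 + y) := by
        rw [← h2, ← h1]
      have h5 : v = p1 + p2 + (α • p1 + (β • p2 + y)) := by
        rw [← h4]; abel
      have h6 : (1 + α) • p1 + (1 + β) • p2 + (y - v) =
          (p1 + p2 + (α • p1 + (β • p2 + y))) - v := by
        simp only [add_smul, one_smul]
        abel
      rw [h6, ← h5, sub_self]
    obtain ⟨h4, h5⟩ := hP.indep (sub_mem hyL hvL) h3
    rw [h4, h5, zero_smul, zero_smul, zero_add, zero_add] at h3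
    exact hv ((sub_eq_zero.1 h3) ▸ hy)
  refine ⟨(p1, κ1), (p2, κ2), (p3, κ3), ⟨hpre.1, hpre.2, ?_⟩, (ku u rfl).1, (ku u rfl).2.1,
    (ku u rfl).2.2, ?_⟩
  · intro δ c
    by_cases hδ : δ = u
    · subst hδ
      by_cases hcb : c = b
      · subst hcb
        refine i123.mono ((hcls δ c).trans ?_)
        rintro x (⟨rfl, -⟩ | ⟨rfl, -⟩ | ⟨rfl, -⟩ | h)
        · exact Or.inr (Or.inl rfl)
        · exact Or.inr (Or.inr (Or.inl rfl))
        · exact Or.inl rfl
        · exact Or.inr (Or.inr (Or.inr h))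
      · refine (hS.ind δ c).mono ((hcls δ c).trans ?_)
        obtain ⟨h1, h2, h3⟩ := ku δ rfl
        rintro x (⟨-, h⟩ | ⟨-, h⟩ | ⟨-, h⟩ | h)
        · exact absurd (h.symm.trans h1) hcb
        · exact absurd (h.symm.trans h2) hcb
        · exact absurd (h.symm.trans h3) hcb
        · exact h
    · have hn := kn δ hδ
      have hor : κ1 δ ≠ c ∨ κ2 δ ≠ c ∨ κ3 δ ≠ c := by
        by_contra hcon
        push Not at hcon
        exact hn ⟨hcon.1.trans hcon.2.1.symm, hcon.2.1.trans hcon.2.2.symm⟩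
      rcases hor with h1 | h2 | h3
      · refine (i23 δ c).mono ((hcls δ c).trans ?_)
        rintro x (⟨-, h⟩ | ⟨rfl, -⟩ | ⟨rfl, -⟩ | h)
        · exact absurd h h1
        · exact Or.inl rfl
        · exact Or.inr (Or.inl rfl)
        · exact Or.inr (Or.inr h)
      · refine (i13 δ c).mono ((hcls δ c).trans ?_)
        rintro x (⟨rfl, -⟩ | ⟨-, h⟩ | ⟨rfl, -⟩ | h)
        · exact Or.inl rfl
        · exact absurd h h2
        · exact Or.inr (Or.inl rfl)
        · exact Or.inr (Or.inr h)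
      · refine (i12 δ c).mono ((hcls δ c).trans ?_)
        rintro x (⟨rfl, -⟩ | ⟨rfl, -⟩ | ⟨-, h⟩ | h)
        · exact Or.inl rfl
        · exact Or.inr (Or.inl rfl)
        · exact absurd h h3
        · exact Or.inr (Or.inr h)
  · show p1 + p2 + p3 = v
    rw [hp3]; abel

end Pool.Agent.X237.TP
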